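import Mathlib

set_option autoImplicit false

/-! Choice of the parameters. -/

namespace Pool.Agent.Helper44.AS

theorem log2_gt : (0.693 : ℝ) < Real.log 2 := by
  have := Real.log_two_gt_d9
  linarith

/-- `l` with `κ ≤ 4 ^ l ≤ 4 κ` -/
theorem exists_l {κ : ℝ} (hκ : Real.log 2 ≤ κ) : ∃ l : ℕ, κ ≤ 4 ^ l ∧ (4 : ℝ) ^ l ≤ 4 * κ := by
  have h69 : (0.693 : ℝ) ≤ κ := log2_gt.le.trans hκ
  by_cases h : κ ≤ 1
  · exact ⟨0, by simpa using h, by rw [pow_zero]; linarith⟩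
  · push Not at h
    obtain ⟨k, hk1, hk2⟩ := exists_nat_pow_near h.le (show (1 : ℝ) < 4 by norm_num)
    refine ⟨k + 1, hk2.le, ?_⟩
    rw [pow_succ]
    linarith

/-- `x ≤ exp (x / 2)` and so on -/
theorem lin_exp {a t : ℝ} : a * t ≤ Real.exp (a * t - 1) := by
  have := Real.add_one_le_exp (a * t - 1)
  linarith

theorem gf (n : ℕ) : (1 + 1 / 32 : ℝ) ^ n ≤ Real.exp (n / 32) := by
  have h1 : (1 + 1 / 32 : ℝ) ≤ Real.exp (1 / 32) := by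
    have := Real.add_one_le_exp (1 / 32 : ℝ)
    linarith
  calc (1 + 1 / 32 : ℝ) ^ n ≤ Real.exp (1 / 32) ^ n := pow_le_pow_left₀ (by norm_num) h1 n
    _ = Real.exp (n / 32) := by
      rw [← Real.exp_nat_mul]
      congr 1
      ring

theorem exp_two_pow (l : ℕ) : Real.exp (0.693 * l) ≤ 2 ^ l := by
  have h1 : (2 : ℝ) ^ l = Real.exp (l * Real.log 2) := by
    rw [Real.exp_nat_mul, Real.exp_log (by norm_num)]
  rw [h1]
  apply Real.exp_le_exp.2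
  have h2 : (0 : ℝ) ≤ l := Nat.cast_nonneg l
  nlinarith [log2_gt]

/-- `exp (9/4) ≤ 10` -/
theorem exp_94 : Real.exp (9 / 4) ≤ 10 := by
  have h1 : Real.exp (9 / 4) ^ 4 ≤ 10 ^ 4 := by
    rw [← Real.exp_nat_mul]
    have e1 : ((4 : ℕ) : ℝ) * (9 / 4) = (9 : ℕ) * 1 := by norm_num
    rw [e1, Real.exp_nat_mul]
    have h2 : Real.exp 1 ≤ 2.7183 := by have := Real.exp_one_lt_d9; linarith
    calc Real.exp 1 ^ 9 ≤ 2.7183 ^ 9 := pow_le_pow_left₀ (Real.exp_pos 1).le h2 9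
      _ ≤ 10 ^ 4 := by norm_num
  exact le_of_pow_le_pow_left₀ (by norm_num) (by norm_num) h1

/-- `exp (7/4) ≤ 6` -/
theorem exp_74 : Real.exp (7 / 4) ≤ 6 := by
  have h1 : Real.exp (7 / 4) ^ 4 ≤ 6 ^ 4 := by
    rw [← Real.exp_nat_mul]
    have e1 : ((4 : ℕ) : ℝ) * (7 / 4) = (7 : ℕ) * 1 := by norm_num
    rw [e1, Real.exp_nat_mul]
    have h2 : Real.exp 1 ≤ 2.7183 := by have := Real.exp_one_lt_d9; linarith
    calc Real.exp 1 ^ 7 ≤ 2.7183 ^ 7 := pow_le_pow_left₀ (Real.exp_pos 1).le h2 7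
      _ ≤ 6 ^ 4 := by norm_num
  exact le_of_pow_le_pow_left₀ (by norm_num) (by norm_num) h1

/-- the growth factor at the size scale -/
theorem big_factor (l : ℕ) :
    ((10 * (l : ℝ) + 66) + 2) * (1 + 1 / 32 : ℝ) ^ (10 * l + 66 + 1) ≤ 800 * 2 ^ l := by
  have hl : (0 : ℝ) ≤ l := Nat.cast_nonneg l
  have h1 := gf (10 * l + 66 + 1)
  have h2 : (((10 * l + 66 + 1 : ℕ) : ℝ)) / 32 ≤ 0.3125 * l + 9 / 4 := by
    push_cast
    linarith
  have h3 : (1 + 1 / 32 : ℝ) ^ (10 * l + 66 + 1) ≤ Real.exp (0.3125 * l) * 10 := by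
    refine h1.trans ((Real.exp_le_exp.2 h2).trans ?_)
    rw [Real.exp_add]
    exact mul_le_mul_of_nonneg_left exp_94 (Real.exp_pos _).le
  have h4 : (10 * (l : ℝ) + 66) + 2 ≤ 80 * Real.exp (0.38 * l) := by
    have h5 := Real.add_one_le_exp (0.38 * (l : ℝ))
    linarith
  calc ((10 * (l : ℝ) + 66) + 2) * (1 + 1 / 32 : ℝ) ^ (10 * l + 66 + 1)
      ≤ (80 * Real.exp (0.38 * l)) * (Real.exp (0.3125 * l) * 10) := by gcongr
    _ = 800 * Real.exp (0.6925 * l) := by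
        rw [show (0.6925 : ℝ) * l = 0.38 * l + 0.3125 * l by ring, Real.exp_add]; ring
    _ ≤ 800 * 2 ^ l := by
        have h6 : Real.exp (0.6925 * (l : ℝ)) ≤ Real.exp (0.693 * l) := by
          apply Real.exp_le_exp.2
          nlinarith
        have := exp_two_pow l
        linarith

/-- the growth factor at the scale of near-invariance -/
theorem small_factor (l : ℕ) :
    ((7 * (l : ℝ) + 54) + 2) * (1 + 1 / 32 : ℝ) ^ (7 * l + 54 + 1) ≤ 340 * 2 ^ l := by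
  have hl : (0 : ℝ) ≤ l := Nat.cast_nonneg l
  have h1 := gf (7 * l + 54 + 1)
  have h2 : (((7 * l + 54 + 1 : ℕ) : ℝ)) / 32 ≤ 0.21875 * l + 7 / 4 := by
    push_cast
    linarith
  have h3 : (1 + 1 / 32 : ℝ) ^ (7 * l + 54 + 1) ≤ Real.exp (0.21875 * l) * 6 := by
    refine h1.trans ((Real.exp_le_exp.2 h2).trans ?_)
    rw [Real.exp_add]
    exact mul_le_mul_of_nonneg_left exp_74 (Real.exp_pos _).le
  have h4 : (7 * (l : ℝ) + 54) + 2 ≤ 56 * Real.exp (0.47 * l) := by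
    have h5 := Real.add_one_le_exp (0.47 * (l : ℝ))
    linarith
  calc ((7 * (l : ℝ) + 54) + 2) * (1 + 1 / 32 : ℝ) ^ (7 * l + 54 + 1)
      ≤ (56 * Real.exp (0.47 * l)) * (Real.exp (0.21875 * l) * 6) := by gcongr
    _ = 336 * Real.exp (0.68875 * l) := by
        rw [show (0.68875 : ℝ) * l = 0.47 * l + 0.21875 * l by ring, Real.exp_add]; ring
    _ ≤ 340 * 2 ^ l := by
        have h6 : Real.exp (0.68875 * (l : ℝ)) ≤ Real.exp (0.693 * l) := by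
          apply Real.exp_le_exp.2
          nlinarith
        have := exp_two_pow l
        have h7 : (0 : ℝ) < 2 ^ l := by positivity
        linarith

/-- **The parameters.** `j₁ = 7 l + 54`, `j₂ = 3 l + 12`. -/
theorem params {κ lk : ℝ} (hκ : Real.log 2 ≤ κ) (hlk : lk ≤ κ) :
    ∃ (j₁ j₂ : ℕ),
      (4 * (2 * (1 + 2 ^ j₂ * (2 ^ j₁ * 2))) : ℝ) ≤ 2 ^ 81 * κ ^ 5 ∧
      (∀ r : ℝ, 0 ≤ r → r ≤ 62700 * κ → (2 * (r + 1) + 1) *
        (4 * Real.sqrt (2 * κ * (j₁ + 2) * (1 + 1 / 32 : ℝ) ^ (j₁ + 1) / 2 ^ j₁)) ≤ 1 / 6) ∧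
      (1 / 4 : ℝ) ^ (2 ^ j₂) ≤ Real.exp (-(2 * (2 * κ * ((j₁ + j₂ : ℕ) + 2) *
        (1 + 1 / 32 : ℝ) ^ (j₁ + j₂ + 1)) + 2 * lk + 2 * (64 * κ))) / 4 := by
  obtain ⟨l, hl1, hl2⟩ := exists_l hκ
  have h69 : (0.693 : ℝ) ≤ κ := log2_gt.le.trans hκ
  have hκ0 : 0 < κ := by linarith
  have h2l : (1 : ℝ) ≤ 2 ^ l := one_le_pow₀ (by norm_num)
  have h4l : (4 : ℝ) ^ l = 2 ^ l * 2 ^ l := by rw [← mul_pow]; norm_num
  refine ⟨7 * l + 54, 3 * l + 12, ?_, ?_, ?_⟩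
  · have e1 : (2 : ℝ) ^ (3 * l + 12) * (2 ^ (7 * l + 54) * 2) = (4 ^ l) ^ 5 * 2 ^ 67 := by
      rw [h4l]
      ring
    rw [e1]
    have h1 : ((4 : ℝ) ^ l) ^ 5 ≤ (4 * κ) ^ 5 := pow_le_pow_left₀ (by positivity) hl2 5
    have h2 : (4 * κ) ^ 5 = 2 ^ 10 * κ ^ 5 := by ring
    rw [h2] at h1
    have h3 : (1 : ℝ) ≤ ((4 : ℝ) ^ l) ^ 5 := one_le_pow₀ (one_le_pow₀ (by norm_num))
    have h4 : (4 * (2 * (1 + (4 ^ l) ^ 5 * 2 ^ 67)) : ℝ) ≤ 2 ^ 71 * (4 ^ l) ^ 5 := by linarith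
    calc (4 * (2 * (1 + (4 ^ l) ^ 5 * 2 ^ 67)) : ℝ) ≤ 2 ^ 71 * (4 ^ l) ^ 5 := h4
      _ ≤ 2 ^ 71 * (2 ^ 10 * κ ^ 5) := by gcongr
      _ = 2 ^ 81 * κ ^ 5 := by ring
  · intro r hr0 hr
    have hsf := small_factor l
    have hε : 2 * κ * (((7 * l + 54 : ℕ) : ℝ) + 2) * (1 + 1 / 32 : ℝ) ^ (7 * l + 54 + 1) /
        2 ^ (7 * l + 54) ≤ (1 / (4.01e6 * 4 ^ l)) ^ 2 := by
      rw [div_le_iff₀ (by positivity)]
      have h1 : 2 * κ * (((7 * l + 54 : ℕ) : ℝ) + 2) * (1 + 1 / 32 : ℝ) ^ (7 * l + 54 + 1) ≤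
          2 * 4 ^ l * (340 * 2 ^ l) := by
        push_cast
        rw [mul_assoc (2 * κ)]
        gcongr
      refine h1.trans ?_
      rw [h4l]
      have h3 : (1 / (4.01e6 * (2 ^ l * 2 ^ l)) : ℝ) ^ 2 * 2 ^ (7 * l + 54) =
          2 ^ l * 2 ^ l * 2 ^ l * (2 ^ 54 / 4.01e6 ^ 2) := by
        field_simp
        ring
      rw [h3]
      have h4 : (680 : ℝ) ≤ 2 ^ 54 / 4.01e6 ^ 2 := by norm_num
      have h5 : (0 : ℝ) < 2 ^ l * 2 ^ l * 2 ^ l := by positivity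
      nlinarith
    have hsq : Real.sqrt (2 * κ * (((7 * l + 54 : ℕ) : ℝ) + 2) *
        (1 + 1 / 32 : ℝ) ^ (7 * l + 54 + 1) / 2 ^ (7 * l + 54)) ≤ 1 / (4.01e6 * 4 ^ l) := by
      rw [← Real.sqrt_sq (show (0 : ℝ) ≤ 1 / (4.01e6 * 4 ^ l) by positivity)]
      exact Real.sqrt_le_sqrt hε
    have hr2 : 2 * (r + 1) + 1 ≤ 125500 * 4 ^ l := by
      have : κ * 125500 ≤ 125500 * 4 ^ l := by linarith
      linarith
    calc (2 * (r + 1) + 1) * (4 * Real.sqrt (2 * κ * (((7 * l + 54 : ℕ) : ℝ) + 2) *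
          (1 + 1 / 32 : ℝ) ^ (7 * l + 54 + 1) / 2 ^ (7 * l + 54)))
        ≤ (125500 * 4 ^ l) * (4 * (1 / (4.01e6 * 4 ^ l))) := by gcongr
      _ = 125500 * 4 / 4.01e6 := by field_simp
      _ ≤ 1 / 6 := by norm_num
  · have hbf := big_factor l
    have e0 : 7 * l + 54 + (3 * l + 12) = 10 * l + 66 := by ring
    rw [e0]
    have hb : 2 * κ * (((10 * l + 66 : ℕ) : ℝ) + 2) * (1 + 1 / 32 : ℝ) ^ (10 * l + 66 + 1) ≤
        2 * 4 ^ l * (800 * 2 ^ l) := by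
      push_cast
      rw [mul_assoc (2 * κ)]
      gcongr
    obtain ⟨x, hx⟩ : ∃ x : ℝ, x = 2 * (2 * κ * (((10 * l + 66 : ℕ) : ℝ) + 2) *
        (1 + 1 / 32 : ℝ) ^ (10 * l + 66 + 1)) + 2 * lk + 2 * (64 * κ) := ⟨_, rfl⟩
    rw [← hx]
    have hx2 : x + 2 ≤ 2 ^ (3 * l + 12) := by
      have h1 : x ≤ 3200 * (4 ^ l * 2 ^ l) + 130 * 4 ^ l := by
        rw [hx]
        linarith
      have h2 : (4 : ℝ) ^ l ≤ 4 ^ l * 2 ^ l := le_mul_of_one_le_right (by positivity) h2l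
      have h3 : (1 : ℝ) ≤ 4 ^ l * 2 ^ l := by
        have : (1 : ℝ) ≤ 4 ^ l := one_le_pow₀ (by norm_num)
        nlinarith
      have h4 : (2 : ℝ) ^ (3 * l + 12) = 4096 * (4 ^ l * 2 ^ l) := by
        rw [h4l]
        ring
      rw [h4]
      linarith
    have h3 : (1 / 4 : ℝ) ≤ Real.exp (-1) := by
      rw [Real.exp_neg]
      have : Real.exp 1 < 4 := by have := Real.exp_one_lt_d9; linarith
      rw [one_div]
      exact inv_anti₀ (Real.exp_pos 1) this.le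
    calc (1 / 4 : ℝ) ^ (2 ^ (3 * l + 12)) ≤ Real.exp (-1) ^ (2 ^ (3 * l + 12)) :=
          pow_le_pow_left₀ (by norm_num) h3 _
      _ = Real.exp (-(2 : ℝ) ^ (3 * l + 12)) := by
          rw [← Real.exp_nat_mul]; congr 1; push_cast; ring
      _ ≤ Real.exp (-(x + 2)) := Real.exp_le_exp.2 (by linarith)
      _ = Real.exp (-x) * Real.exp (-2) := by rw [← Real.exp_add]; congr 1; ring
      _ ≤ Real.exp (-x) / 4 := by
          have h5 : Real.exp (-2) ≤ 1 / 4 := by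
            rw [Real.exp_neg, one_div]
            apply inv_anti₀ (by norm_num)
            have : (2 : ℝ) ≤ Real.exp 1 := by have := Real.exp_one_gt_d9; linarith
            have h6 : Real.exp 2 = Real.exp 1 * Real.exp 1 := by rw [← Real.exp_add]; norm_num
            nlinarith
          have := Real.exp_pos (-x)
          nlinarith

end Pool.Agent.Helper44.AS
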