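import Pool.Agent.Helper44.FA.Geo2
import Pool.Agent.Helper44.AS.Num
import Pool.Graph.R_pool_sql_team_seeded_f0cf7b00.H137R2.Tr.Growth

set_option autoImplicit false

/-! The structure extracted from a near-minimising pair, with the Bohr set inside an iterated
sumset of the symmetric set `A`. -/

open scoped Pointwise

namespace Pool.Agent.Helper44.AS

open N173.BR Pool.Agent.TH198.DC H112 Pool.Agent.Helper44.FA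

theorem core {G : Type*} [AddCommGroup G] [AddGroup.FG G] [DecidableEq G] {K κ : ℝ} {A : Finset G}
    (hA : A.Nonempty) (hs : ∀ a ∈ A, -a ∈ A) (hK : ((A + A).card : ℝ) ≤ K * A.card)
    (hK1 : 1 ≤ K) (hκ : κ = Real.log (2 * K)) :
    ∃ (N₀ : ℕ) (Sp : Set (G →+ UnitAddCircle)) (E : Finset G) (ρ : ℝ),
      Even N₀ ∧ ((4 * N₀ : ℕ) : ℝ) ≤ 2 ^ 81 * κ ^ 5 ∧ E ⊆ A ∧
      (A.card : ℝ) * Real.exp (-(128 * κ + 1)) ≤ E.card ∧ 0 < ρ ∧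
      (∀ r : ℝ, 0 ≤ r → r ≤ 62700 * κ → (2 * (r + 1) + 1) * ρ ≤ 1 / 6) ∧
      (∀ x ∈ E, ∀ y ∈ E, x - y ∈ bohr Sp ρ) ∧ (bohr Sp (1 / 6)).Finite ∧
      ∀ x ∈ bohr Sp (1 / 6), Sm A N₀ x := by
  classical
  have hlog2 : 0 < Real.log 2 := Real.log_pos (by norm_num)
  have hκ2 : Real.log 2 ≤ κ := by
    rw [hκ]
    exact Real.log_le_log (by norm_num) (by linarith)
  have hκ0 : 0 < κ := by linarith
  have hlogK : Real.log K ≤ κ := by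
    rw [hκ]
    exact Real.log_le_log (by linarith) (by linarith)
  obtain ⟨j₁, j₂, hp1, hp2, hp3⟩ := params hκ2 hlogK
  obtain ⟨p₁, p₂, hp₁, hp₂, hs₁, hs₂, hH₁, hH₂, hgrow⟩ :=
    H137.Tr.good_pair hA hK (s := 32) (by norm_num) (j₁ + j₂ + 1)
  rw [← hκ] at hH₁ hH₂ hgrow
  set q := p₁ * p₂ with hq
  have hqlaw : Law q := hp₁.mul hp₂
  have hD₁ : Real.log A.card - 64 * κ ≤ H p₁ := by
    refine le_trans (le_of_eq ?_) hH₁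
    ring
  have hn1 : 1 ≤ 2 ^ j₁ := Nat.one_le_two_pow
  have hm1 : 1 ≤ 2 ^ j₂ := Nat.one_le_two_pow
  obtain ⟨b, hb⟩ : ∃ b : ℝ, b = 2 * κ * ((j₁ + j₂ : ℕ) + 2) * (1 + 1 / 32 : ℝ) ^ (j₁ + j₂ + 1) :=
    ⟨_, rfl⟩
  rw [← hb] at hp3
  have hg1 : H (q ^ (2 * 2 ^ j₂ * 2 ^ j₁)) ≤ (H p₁ + H p₂) / 2 + b := by
    have e1 : 2 * 2 ^ j₂ * 2 ^ j₁ = 2 ^ (j₁ + j₂ + 1) := by ring
    rw [e1]
    refine (hgrow (j₁ + j₂ + 1) le_rfl).trans (le_of_eq ?_)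
    rw [hb]; push_cast; ring
  obtain ⟨hfin, -, hDf⟩ := bohr_size2 hA hK hp₁ hp₂ hs₁ hs₂ hD₁ (n := 2 ^ j₁) (m := 2 ^ j₂)
    hn1 hm1 (b := b) hg1 hp3
  rw [← hq] at hfin hDf
  -- near invariance
  obtain ⟨ε, hε⟩ : ∃ ε : ℝ, ε = 2 * κ * (j₁ + 2) * (1 + 1 / 32 : ℝ) ^ (j₁ + 1) / 2 ^ j₁ :=
    ⟨_, rfl⟩
  have hε0 : 0 < ε := by rw [hε]; positivity
  rw [← hε] at hp2
  have hinc : H (q ^ (2 ^ j₁ + 1)) - H q ≤ ((2 ^ j₁ : ℕ) : ℝ) * ε := by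
    have h1 : H (q ^ (2 ^ j₁ + 1)) ≤ H (q ^ (2 ^ (j₁ + 1))) := by
      have e1 : q ^ (2 ^ (j₁ + 1)) = q ^ (2 ^ j₁ + 1) * q ^ (2 ^ j₁ - 1) := by
        rw [← pow_add]; congr 1
        have : 2 ^ (j₁ + 1) = 2 ^ j₁ + 2 ^ j₁ := by ring
        omega
      rw [e1]
      exact H_le_mul (hqlaw.pow _) (hqlaw.pow _)
    have h2 := hgrow (j₁ + 1) (by omega)
    have h3 : (H p₁ + H p₂) / 2 ≤ H q := by
      have a1 : H p₁ ≤ H q := H_le_mul hp₁ hp₂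
      have a2 : H p₂ ≤ H q := by
        rw [hq, mul_comm]; exact H_le_mul hp₂ hp₁
      linarith
    have h4' : ((2 ^ j₁ : ℕ) : ℝ) * ε = 2 * κ * (j₁ + 2) * (1 + 1 / 32 : ℝ) ^ (j₁ + 1) := by
      rw [hε]; push_cast
      field_simp
    rw [h4']
    have h5 : 2 * κ * (((j₁ + 1 : ℕ) : ℝ) + 1) * (1 + 1 / 32 : ℝ) ^ (j₁ + 1) =
        2 * κ * (j₁ + 2) * (1 + 1 / 32 : ℝ) ^ (j₁ + 1) := by
      push_cast; ring
    rw [h5] at h2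
    linarith
  obtain ⟨E, hEA, hEcard, hE⟩ := near_invariance hp₁ hp₂ hs₁ hn1 hD₁ hinc
  rw [← hq] at hE
  refine ⟨2 * (1 + 2 ^ j₂ * (2 ^ j₁ * (1 + 1))),
    {γ : G →+ UnitAddCircle | 1 / 2 ≤ ‖ft (q ^ 2 ^ j₁) γ‖}, E, 4 * Real.sqrt ε,
    even_two_mul _, ?_, hEA, ?_, by positivity, hp2, ?_, hfin, ?_⟩
  · refine le_trans (le_of_eq ?_) hp1
    push_cast
    ring
  · refine le_trans (le_of_eq ?_) hEcard
    ring_nf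
  · intro x hx y hy γ hγ
    exact hE x hx y hy γ hγ
  · intro x hx
    obtain ⟨u, v, hu, hv, rfl⟩ := hDf x hx
    rw [two_mul]
    exact Sm.sub hs hu hv

end Pool.Agent.Helper44.AS
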