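import Pool.Agent.Helper44.AS.Lift

set_option autoImplicit false

/-! The convex progression inside the averages, for all `n` at the same time. -/

open scoped Pointwise

namespace Pool.Agent.Helper44.AS

open N173.BR Pool.Agent.TH198.DC H112 Pool.Agent.Helper44.FA

/-- the hull of the differences -/
def hull {r : ℕ} (F : Finset (Fin r → ℤ)) : Set (Fin r → ℝ) :=
  convexHull ℝ (rv '' ((F - F : Finset (Fin r → ℤ)) : Set (Fin r → ℤ)))

theorem stable {r : ℕ} {N : Seminorm ℝ (Fin r → ℝ)} (hN : ∀ x, N x = 0 → x = 0)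
    {F : Finset (Fin r → ℤ)} (hF : F.Nonempty) {ρ : ℝ} (hρ : 0 < ρ) :
    ∃ k₀ : ℕ, 1 ≤ k₀ ∧ ∀ n : ℕ, 1 ≤ n → ∀ y : Fin r → ℤ,
      rv y ∈ (1 / 4 : ℝ) • (hull F + {x | N x ≤ ρ / k₀}) →
      rv y ∈ (1 / 4 : ℝ) • (hull F + {x | N x ≤ ρ / n}) := by
  classical
  let U : ℕ → Set (Fin r → ℤ) := fun n => LP ((1 / 4 : ℝ) • (hull F + {x | N x ≤ ρ / (n + 1 : ℕ)}))
  have hfin : ∀ n, (U n).Finite := by
    intro n
    have h1 : (0 : ℝ) < ρ / (n + 1 : ℕ) := by positivity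
    exact ((body hN hF h1).smul (by norm_num : (0 : ℝ) < 1 / 4)).fin1
  have hmono : ∀ a b : ℕ, a ≤ b → U b ⊆ U a := by
    intro a b hab y hy
    obtain ⟨z, ⟨p, hp, u, hu, hpu⟩, hz⟩ := hy
    refine ⟨z, ⟨p, hp, u, ?_, hpu⟩, hz⟩
    refine le_trans (show N u ≤ ρ / (b + 1 : ℕ) from hu) ?_
    have h2 : ((a + 1 : ℕ) : ℝ) ≤ ((b + 1 : ℕ) : ℝ) := by exact_mod_cast Nat.succ_le_succ hab
    exact div_le_div_of_nonneg_left hρ.le (by positivity) h2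
  let f : ℕ → ℕ := fun n => (U n).ncard
  have hmin : ∀ n, f (Function.argmin f) ≤ f n := fun n => Function.argmin_le f n
  refine ⟨Function.argmin f + 1, by omega, ?_⟩
  intro n hn y hy
  obtain ⟨n', rfl⟩ : ∃ n', n = n' + 1 := ⟨n - 1, by omega⟩
  have hy' : y ∈ U (Function.argmin f) := hy
  have goal : y ∈ U n' := by
    rcases le_total n' (Function.argmin f) with h | h
    · exact hmono _ _ h hy'
    · have h3 : U n' = U (Function.argmin f) :=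
        Set.eq_of_subset_of_ncard_le (hmono _ _ h) (hmin n') (hfin _)
      rw [h3]
      exact hy'
  exact goal

theorem geo_all {d N₀ r : ℕ} {R : Finset (Fin d → ℤ)} (hR : R.Nonempty) (hs : ∀ s ∈ R, -s ∈ R)
    (hNev : Even N₀) {Sp : Set ((Fin d → ℤ) →+ UnitAddCircle)}
    (hSm : ∀ x ∈ bohr Sp (1 / 6), Sm R N₀ x)
    {N : Seminorm ℝ (Fin r → ℝ)} {ψ : (Fin r → ℤ) →+ (Fin d → ℤ)}
    (hN : ∀ x, N x = 0 → x = 0)
    (h1 : ∀ c : Fin r → ℤ, N (rv c) < 1 / 2 → ∀ t : ℝ, 0 ≤ t → (ψ c ∈ bohr Sp t ↔ N (rv c) ≤ t))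
    {F : Finset (Fin r → ℤ)} (hFne : F.Nonempty) {e₀ : Fin d → ℤ} (hFR : ∀ f ∈ F, e₀ + ψ f ∈ R)
    {ρ : ℝ} (hρ0 : 0 < ρ) (hDN : ∀ f ∈ F - F, N (rv f) ≤ 2 * ρ)
    (hm : (2 * ((r : ℝ) + 1) + 1) * ρ ≤ 1 / 6) :
    ∃ (B : Set (Fin r → ℝ)) (F' : Finset (Fin r → ℤ)), F' ⊆ F ∧ SB B ∧
      (∀ n : ℕ, 1 ≤ n → Even n → 2 * N₀ ≤ n → ∀ y ∈ LP B, ψ y ∈ Avg n R) ∧
      Set.InjOn ψ (LP B) ∧ F.card ≤ 125 ^ r * F'.card ∧ ∀ a ∈ F', ∀ b ∈ F', a - b ∈ LP B := by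
  classical
  obtain ⟨k₀, hk₀, hst⟩ := stable hN hFne hρ0
  have hk₀' : (0 : ℝ) < k₀ := by exact_mod_cast hk₀
  have hρ18 : 3 * ρ ≤ 1 / 6 := by
    have h3 : (3 : ℝ) * ρ ≤ (2 * ((r : ℝ) + 1) + 1) * ρ := by
      apply mul_le_mul_of_nonneg_right _ hρ0.le
      have : (0 : ℝ) ≤ r := Nat.cast_nonneg r
      linarith
    exact h3.trans hm
  have hinj : ∀ c : Fin r → ℤ, N (rv c) < 1 / 2 → ψ c = 0 → c = 0 := by
    intro c hc h0
    have h3 : ψ c ∈ bohr Sp 0 := by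
      rw [h0]
      intro γ _
      rw [map_zero, norm_zero]
    exact LL_zero hN ((h1 c hc 0 le_rfl).1 h3)
  have hDS : ∀ f ∈ F - F, Sm R 2 (ψ f) := by
    intro f hf
    obtain ⟨a, ha, b, hb, rfl⟩ := Finset.mem_sub.1 hf
    have h3 : ψ (a - b) = (e₀ + ψ a) - (e₀ + ψ b) := by rw [map_sub]; abel
    rw [h3]
    exact Sm.sub hs (Sm.of_mem (hFR a ha)) (Sm.of_mem (hFR b hb))
  have hδ : (0 : ℝ) < ρ / k₀ := by positivity
  have hB : SB (hull F + {x | N x ≤ ρ / k₀}) := body hN hFne hδ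
  set B := hull F + {x | N x ≤ ρ / k₀} with hBdef
  have hFB : ∀ x ∈ F, ∀ y ∈ F, rv (x - y) ∈ B := by
    intro x hx y hy
    refine ⟨rv (x - y), subset_convexHull _ _ ⟨x - y, ?_, rfl⟩, 0, ?_, add_zero _⟩
    · exact Finset.mem_coe.2 (Finset.sub_mem_sub hx hy)
    · show N 0 ≤ ρ / k₀
      rw [map_zero]
      exact hδ.le
  have hHN : ∀ x ∈ B, N x ≤ 3 * ρ := by
    rintro _ ⟨p, hp, u, hu, rfl⟩
    have h3 : p ∈ N.closedBall 0 (2 * ρ) := by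
      refine convexHull_min ?_ (N.convex_closedBall 0 (2 * ρ)) hp
      rintro _ ⟨f, hf, rfl⟩
      rw [Seminorm.mem_closedBall_zero]
      exact hDN f hf
    rw [Seminorm.mem_closedBall_zero] at h3
    have h4 : N u ≤ ρ / k₀ := hu
    have h5 : ρ / k₀ ≤ ρ := div_le_self hρ0.le (by exact_mod_cast hk₀)
    refine (map_add_le_add N _ _).trans ?_
    linarith
  have hquarterN : ∀ y : Fin r → ℤ, rv y ∈ (1 / 4 : ℝ) • B → N (rv y) ≤ ρ := by
    rintro y ⟨b, hb, hby⟩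
    have h3 : N (rv y) = 1 / 4 * N b := by
      rw [← hby]
      show N ((1 / 4 : ℝ) • b) = _
      rw [map_smul_eq_mul, Real.norm_of_nonneg (by norm_num)]
    rw [h3]
    have := hHN b hb
    linarith
  have hB4 := hB.smul (by norm_num : (0 : ℝ) < 1 / 4)
  obtain ⟨x₂, hx₂, F₂, hF₂, hc₂, h₂⟩ := dense_part2 hB F hFne hFB
  have hne₂ : F₂.Nonempty := by
    rw [← Finset.card_pos]
    by_contra h
    have h0 : F₂.card = 0 := by omega
    rw [h0, mul_zero] at hc₂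
    have : 0 < F.card := Finset.card_pos.2 hFne
    omega
  obtain ⟨x₃, hx₃, F₃, hF₃, hc₃, h₃⟩ := dense_part (hB.smul (by norm_num : (0 : ℝ) < 1 / 8)) F₂
    hne₂ x₂ (by
      intro x hx
      rw [smul_smul]
      have := h₂ x hx
      norm_num at this ⊢
      exact this)
  refine ⟨(1 / 4 : ℝ) • B, F₃, hF₃.trans hF₂, hB4, ?_, ?_, ?_, ?_⟩
  · intro n hn hev hN2 y hy
    have hy' := hst n hn y hy
    obtain ⟨t, k, ht, hk, hz⟩ := round_step hn hρ0 hDN hy'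
    have hzN : N (rv (n • y - ∑ f ∈ t, k f • f)) ≤ 1 / 6 := hz.trans hm
    have h3 : ψ (n • y - ∑ f ∈ t, k f • f) ∈ bohr Sp (1 / 6) :=
      (h1 _ (lt_of_le_of_lt hzN (by norm_num)) (1 / 6) (by norm_num)).2 hzN
    have h4 := hSm _ h3
    have h5 : Sm R (∑ f ∈ t, k f * 2) (∑ f ∈ t, k f • ψ f) :=
      Sm.sum t _ _ fun f hf => Sm.nsmul (hDS f (ht f hf)) (k f)
    have h6 := h4.add h5
    have h7 : ψ (n • y - ∑ f ∈ t, k f • f) + ∑ f ∈ t, k f • ψ f = n • ψ y := by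
      rw [map_sub, map_nsmul, map_sum]
      simp only [map_nsmul]
      abel
    rw [h7, ← Finset.sum_mul] at h6
    rw [mem_Avg]
    refine Sm.pad hR hs h6 (by omega) ?_
    obtain ⟨a, ha⟩ := hev
    obtain ⟨b, hb⟩ := hNev
    exact ⟨a - b - ∑ f ∈ t, k f, by omega⟩
  · intro y hy y' hy' hyy
    have h3 : N (rv (y - y')) < 1 / 2 := by
      rw [rv_sub]
      refine lt_of_le_of_lt (map_sub_le_add N _ _) ?_
      have h4 := hquarterN y hy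
      have h5 := hquarterN y' hy'
      linarith
    exact sub_eq_zero.1 (hinj _ h3 (by rw [map_sub, hyy, sub_self]))
  · calc F.card ≤ 25 ^ r * F₂.card := hc₂
      _ ≤ 25 ^ r * (5 ^ r * F₃.card) := Nat.mul_le_mul_left _ hc₃
      _ = 125 ^ r * F₃.card := by rw [← mul_assoc, ← mul_pow]; norm_num
  · intro a ha b hb
    show rv (a - b) ∈ (1 / 4 : ℝ) • B
    have h8 := hB.smul (by norm_num : (0 : ℝ) < 1 / 8)
    have h3 : rv (a - b) = rv (a - x₃) + -rv (b - x₃) := by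
      rw [rv_sub, rv_sub, rv_sub]; abel
    have h4 : (1 / 4 : ℝ) • B = (1 / 8 : ℝ) • B + (1 / 8 : ℝ) • B := by
      rw [← hB.conv.add_smul (by norm_num) (by norm_num)]
      norm_num
    rw [h3, h4]
    exact Set.add_mem_add (h₃ a ha) (h8.symm _ (h₃ b hb))

end Pool.Agent.Helper44.AS
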