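import Pool.Agent.Helper44.AS.Core
import Pool.Graph.R_pool_sql_team_seeded_f0cf7b00.H137R2.Tr.Sublattice

set_option autoImplicit false

/-! A subset of a small Bohr set in a lattice model of dimension controlled by its doubling. -/

open scoped Pointwise

namespace Pool.Agent.Helper44.AS

open N173.BR Pool.Agent.TH198.DC H112 Pool.Agent.Helper44.FA

theorem lift {d : ℕ} {Sp : Set ((Fin d → ℤ) →+ UnitAddCircle)}
    (hfin : (bohr Sp (1 / 6)).Finite) {ρ : ℝ} (hρ0 : 0 < ρ) (hρ : ρ ≤ 1 / 12)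
    {E : Finset (Fin d → ℤ)} (hE : E.Nonempty) (hEE : ∀ x ∈ E, ∀ y ∈ E, x - y ∈ bohr Sp ρ)
    {K : ℝ} (hK : ((E + E).card : ℝ) ≤ K * E.card) :
    ∃ (r : ℕ) (N : Seminorm ℝ (Fin r → ℝ)) (ψ : (Fin r → ℤ) →+ (Fin d → ℤ))
      (F : Finset (Fin r → ℤ)) (e₀ : Fin d → ℤ),
      (r : ℝ) ≤ 480 * Real.log K + 1 ∧ (∀ x, N x = 0 → x = 0) ∧
      (∀ c : Fin r → ℤ, N (rv c) < 1 / 2 → ∀ t : ℝ, 0 ≤ t → (ψ c ∈ bohr Sp t ↔ N (rv c) ≤ t)) ∧
      (∀ f ∈ F, e₀ + ψ f ∈ E) ∧ (∀ f ∈ F - F, N (rv f) ≤ 2 * ρ) ∧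
      (E.card : ℝ) ≤ K ^ 185 * F.card := by
  classical
  obtain ⟨m, N, ψ, hN, h1, h2, -⟩ := lattice_repr Sp hfin hρ0.le (by linarith : ρ ≤ 1 / 6)
  have h1' : ∀ c : Fin m → ℤ, N (rv c) < 1 / 2 → ∀ t : ℝ, 0 ≤ t →
      (ψ c ∈ bohr Sp t ↔ N (rv c) ≤ t) := h1
  have hinj : ∀ c : Fin m → ℤ, N (rv c) < 1 / 2 → ψ c = 0 → c = 0 := by
    intro c hc h0
    have h3 : ψ c ∈ bohr Sp 0 := by
      rw [h0]
      intro γ _
      rw [map_zero, norm_zero]
    exact LL_zero hN ((h1 c hc 0 le_rfl).1 h3)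
  obtain ⟨e, he⟩ := hE
  have hex : ∀ x ∈ E, ∃ c : Fin m → ℤ, N (rv c) ≤ ρ ∧ ψ c = x - e := by
    intro x hx
    obtain ⟨c, hc, hxc⟩ := h2 _ (hEE x hx e he)
    refine ⟨c, hc, ?_⟩
    have := ann_trivial hfin hxc
    exact (sub_eq_zero.1 this).symm
  choose! c hcN hcψ using hex
  have hcinj : Set.InjOn c (E : Set (Fin d → ℤ)) := by
    intro x hx y hy hxy
    have h3 := hcψ x hx
    rw [hxy, hcψ y hy] at h3
    exact (sub_left_injective h3).symm
  set F₀ := E.image c with hF₀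
  have hF₀c : F₀.card = E.card := Finset.card_image_of_injOn hcinj
  have hF₀ne : F₀.Nonempty := ⟨c e, Finset.mem_image_of_mem _ he⟩
  have hF₀N : ∀ f ∈ F₀, N (rv f) ≤ ρ := by
    intro f hf
    obtain ⟨x, hx, rfl⟩ := Finset.mem_image.1 hf
    exact hcN x hx
  have hF₀E : ∀ f ∈ F₀, e + ψ f ∈ E := by
    intro f hf
    obtain ⟨x, hx, rfl⟩ := Finset.mem_image.1 hf
    rw [hcψ x hx, add_sub_cancel]
    exact hx
  have hsum : (F₀ + F₀).card ≤ (E + E).card := by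
    refine Finset.card_le_card_of_injOn (fun z => e + e + ψ z) ?_ ?_
    · intro z hz
      obtain ⟨x, hx, y, hy, rfl⟩ := Finset.mem_add.1 (Finset.mem_coe.1 hz)
      rw [Finset.mem_coe]
      show e + e + ψ (x + y) ∈ E + E
      rw [map_add, show e + e + (ψ x + ψ y) = (e + ψ x) + (e + ψ y) by abel]
      exact Finset.add_mem_add (hF₀E x hx) (hF₀E y hy)
    · intro z hz w hw hzw
      obtain ⟨x, hx, y, hy, rfl⟩ := Finset.mem_add.1 (Finset.mem_coe.1 hz)
      obtain ⟨x', hx', y', hy', rfl⟩ := Finset.mem_add.1 (Finset.mem_coe.1 hw)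
      have h3 : ψ (x + y - (x' + y')) = 0 := by
        rw [map_sub]
        exact sub_eq_zero.2 (add_left_cancel (hzw : e + e + ψ (x + y) = e + e + ψ (x' + y')))
      have h4 : N (rv (x + y - (x' + y'))) < 1 / 2 := by
        rw [rv_sub, rv_add, rv_add]
        refine lt_of_le_of_lt (map_sub_le_add N _ _) ?_
        have g1 := map_add_le_add N (rv x) (rv y)
        have g2 := map_add_le_add N (rv x') (rv y')
        have g3 := hF₀N x hx
        have g4 := hF₀N y hy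
        have g5 := hF₀N x' hx'
        have g6 := hF₀N y' hy'
        linarith
      exact sub_eq_zero.1 (hinj _ h4 h3)
  have hK' : ((F₀ + F₀).card : ℝ) ≤ K * F₀.card := by
    rw [hF₀c]
    refine le_trans ?_ hK
    exact_mod_cast hsum
  obtain ⟨r₀, ψ₂, t, S0, hr₀, hψ₂, hS0, hS0c⟩ := weak_slice hF₀ne hK'
  set S₁ : Finset (Fin m → ℤ) := Finset.univ.image fun i : Fin r₀ => ψ₂ (Pi.single i 1) with hS₁
  have hS₁c : S₁.card ≤ r₀ := by
    refine Finset.card_image_le.trans (le_of_eq ?_)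
    rw [Finset.card_univ, Fintype.card_fin]
  have hcl : ∀ z : Fin r₀ → ℤ, ψ₂ z ∈ AddSubgroup.closure (S₁ : Set (Fin m → ℤ)) := by
    intro z
    have h3 : z = ∑ i, z i • (Pi.single i 1 : Fin r₀ → ℤ) := by
      funext k
      rw [Finset.sum_apply, Finset.sum_eq_single k]
      · simp
      · intro i _ hik
        simp [Pi.single_apply, hik.symm]
      · intro h
        exact absurd (Finset.mem_univ _) h
    rw [h3, map_sum]
    refine AddSubgroup.sum_mem _ fun i _ => ?_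
    rw [map_zsmul]
    refine AddSubgroup.zsmul_mem _ (AddSubgroup.subset_closure ?_) _
    exact Finset.mem_coe.2 (Finset.mem_image_of_mem _ (Finset.mem_univ i))
  obtain ⟨r, N', ι, hr, hιinj, hN', hNι, hrep⟩ := H137.Tr.sublattice N hN S₁
  have hg : ∀ z : Fin r₀ → ℤ, ∃ w : Fin r → ℤ, ι w = ψ₂ z := fun z => hrep _ (hcl z)
  choose g hg using hg
  have hginj : Function.Injective g := by
    intro x y hxy
    apply hψ₂
    rw [← hg x, ← hg y, hxy]
  refine ⟨r, N', ψ.comp ι, S0.image g, e + ψ t, ?_, hN', ?_, ?_, ?_, ?_⟩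
  · have : (r : ℝ) ≤ r₀ := by exact_mod_cast hr.trans hS₁c
    exact this.trans hr₀
  · intro w hw s hs
    have h3 : N' (rv w) = N (rv (ι w)) := hNι w
    rw [h3] at hw ⊢
    exact h1' (ι w) hw s hs
  · intro f hf
    obtain ⟨z, hz, rfl⟩ := Finset.mem_image.1 hf
    have h3 : e + ψ t + (ψ.comp ι) (g z) = e + ψ (t + ψ₂ z) := by
      rw [AddMonoidHom.comp_apply, hg z, map_add]
      abel
    rw [h3]
    exact hF₀E _ (hS0 z hz)
  · intro f hf
    obtain ⟨a, ha, b, hb, rfl⟩ := Finset.mem_sub.1 hf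
    obtain ⟨x, hx, rfl⟩ := Finset.mem_image.1 ha
    obtain ⟨y, hy, rfl⟩ := Finset.mem_image.1 hb
    have h3 : N' (rv (g x - g y)) = N (rv (ι (g x - g y))) := hNι _
    have h6 : ψ₂ x - ψ₂ y = (t + ψ₂ x) - (t + ψ₂ y) := by abel
    rw [h3, map_sub, hg x, hg y, h6, rv_sub]
    refine (map_sub_le_add N _ _).trans ?_
    have h4 := hF₀N _ (hS0 x hx)
    have h5 := hF₀N _ (hS0 y hy)
    linarith
  · rw [Finset.card_image_of_injective _ hginj, ← hF₀c]
    exact hS0c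

end Pool.Agent.Helper44.AS
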