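import Pool.Agent.Helper44.AS.Geo
import Pool.Agent.Helper44.FA.Red

set_option autoImplicit false

/-! Assembly in `ℤ ^ m`. -/

open scoped Pointwise

namespace Pool.Agent.Helper44.AS

open N173.BR Pool.Agent.TH198.DC H112 Pool.Agent.Helper44.FA

theorem Avg_mem_map {d m n : ℕ} {ψ : (Fin d → ℤ) →+ (Fin m → ℤ)}
    {t : Fin m → ℤ} {R : Finset (Fin d → ℤ)} {S : Finset (Fin m → ℤ)}
    (h : ∀ z ∈ R, t + ψ z ∈ S) {y : Fin d → ℤ} (hy : y ∈ Avg n R) : t + ψ y ∈ Avg n S := by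
  obtain ⟨a, ha, hay⟩ := hy
  refine ⟨fun i => t + ψ (a i), fun i => h _ (ha i), ?_⟩
  rw [Finset.sum_add_distrib, ← map_sum, hay, map_nsmul, smul_add]
  simp

theorem log4_lt : Real.log 4 < 1.3864 := by
  have h4 : Real.log 4 = 2 * Real.log 2 := by
    rw [show (4 : ℝ) = 2 ^ 2 by norm_num, Real.log_pow]
    norm_num
  have := Real.log_two_lt_d9
  rw [h4]; linarith

theorem log125_lt : Real.log 125 < 4.853 := by
  have h1 : Real.log 125 ≤ Real.log ((2 : ℝ) ^ 7) := Real.log_le_log (by norm_num) (by norm_num)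
  rw [Real.log_pow] at h1
  have := Real.log_two_lt_d9
  push_cast at h1
  linarith

theorem structure_thm {m₀ : ℕ} {K κ : ℝ} {S : Finset (Fin m₀ → ℤ)} (hS : S.Nonempty)
    (hK : ((S + S).card : ℝ) ≤ K * S.card) (hκ : κ = Real.log (2 * K)) :
    ∃ (r : ℕ) (B : Set (Fin r → ℝ)) (ψ : (Fin r → ℤ) →+ (Fin m₀ → ℤ)) (x₀ : Fin m₀ → ℤ)
      (X : Finset (Fin m₀ → ℤ)), (r : ℝ) ≤ 7 * 10 ^ 7 * κ ∧ SB B ∧ Set.InjOn ψ (LP B) ∧
      (∀ n : ℕ, Even n → 10 ^ 40 * κ ^ 5 ≤ n → ∀ y ∈ LP B, x₀ + ψ y ∈ Avg n S) ∧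
      X ⊆ S ∧ (X.card : ℝ) ≤ Real.exp (4 * 10 ^ 8 * κ) ∧
      ∀ s ∈ S, ∃ x ∈ X, ∃ y ∈ LP B, s = x + ψ y := by
  classical
  have hc : (0 : ℝ) < S.card := by exact_mod_cast hS.card_pos
  have hK1 : 1 ≤ K := by
    have h1 : (S.card : ℝ) ≤ (S + S).card := by
      exact_mod_cast Finset.card_le_card_add_right hS
    by_contra h
    nlinarith
  have hK0 : 0 < K := by linarith
  have hlogK0 : 0 ≤ Real.log K := Real.log_nonneg hK1
  have hκeq : κ = Real.log 2 + Real.log K := by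
    rw [hκ, Real.log_mul (by norm_num) hK0.ne']
  have hl2 := Real.log_two_gt_d9
  have hl2' := Real.log_two_lt_d9
  have hκ0 : 0 < κ := by linarith
  obtain ⟨d, ψ₁, t₁, R, hd, hψ₁, hR1, hRs, hRne, hRc, -⟩ := reduce (n := 1) hS hK le_rfl
  have hRc0 : (0 : ℝ) < R.card := by exact_mod_cast hRne.card_pos
  -- doubling of `R`
  obtain ⟨K₁, hK₁⟩ : ∃ K₁ : ℝ, K₁ = K * (4 ^ d * K ^ 371) := ⟨_, rfl⟩
  have hRR : (R + R).card ≤ (S + S).card := by
    refine Finset.card_le_card_of_injOn (fun z => t₁ + t₁ + ψ₁ z) ?_ ?_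
    · intro z hz
      obtain ⟨x, hx, y, hy, rfl⟩ := Finset.mem_add.1 (Finset.mem_coe.1 hz)
      rw [Finset.mem_coe]
      show t₁ + t₁ + ψ₁ (x + y) ∈ S + S
      rw [map_add, show t₁ + t₁ + (ψ₁ x + ψ₁ y) = (t₁ + ψ₁ x) + (t₁ + ψ₁ y) by abel]
      exact Finset.add_mem_add (hR1 x hx) (hR1 y hy)
    · intro z _ w _ hzw
      exact hψ₁ (add_left_cancel (hzw : t₁ + t₁ + ψ₁ z = t₁ + t₁ + ψ₁ w))
  have hSR : K * (S.card : ℝ) ≤ K₁ * R.card := by
    rw [hK₁, mul_assoc]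
    exact mul_le_mul_of_nonneg_left hRc hK0.le
  have hKR : ((R + R).card : ℝ) ≤ K₁ * R.card := by
    have h1 : ((R + R).card : ℝ) ≤ (S + S).card := by exact_mod_cast hRR
    exact h1.trans (hK.trans hSR)
  have hK₁1 : 1 ≤ K₁ := by
    rw [hK₁]
    have h1 : (1 : ℝ) ≤ 4 ^ d := one_le_pow₀ (by norm_num)
    have h2 : (1 : ℝ) ≤ K ^ 371 := one_le_pow₀ hK1
    exact one_le_mul_of_one_le_of_one_le hK1 (one_le_mul_of_one_le_of_one_le h1 h2)
  have hK₁0 : 0 < K₁ := by linarith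
  have hlogK₁ : Real.log K₁ = Real.log K + (d * Real.log 4 + 371 * Real.log K) := by
    rw [hK₁, Real.log_mul hK0.ne' (by positivity), Real.log_mul (by positivity) (by positivity),
      Real.log_pow, Real.log_pow]
    push_cast
    ring
  obtain ⟨κ₁, hκ₁⟩ : ∃ κ₁ : ℝ, κ₁ = Real.log (2 * K₁) := ⟨_, rfl⟩
  have hκ₁eq : κ₁ = Real.log 2 + Real.log K₁ := by
    rw [hκ₁, Real.log_mul (by norm_num) hK₁0.ne']
  have hκ₁κ : κ₁ ≤ 1038 * κ := by
    have h1 : (d : ℝ) * Real.log 4 ≤ (480 * Real.log K + 1) * 1.3864 :=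
      mul_le_mul hd log4_lt.le (Real.log_nonneg (by norm_num)) (by positivity)
    rw [hκ₁eq, hlogK₁, hκeq]
    linarith
  have hlogK₁0 : 0 ≤ Real.log K₁ := Real.log_nonneg hK₁1
  have hκ₁0 : 0.693 ≤ κ₁ := by linarith
  obtain ⟨N₀, Sp, E, ρ, hNev, hN₀, hER, hEc, hρ0, hρ, hEE, hfin, hSm⟩ :=
    core hRne hRs hKR hK₁1 hκ₁
  have hEpos : (0 : ℝ) < E.card := lt_of_lt_of_le (by positivity) hEc
  have hEne : E.Nonempty := by
    rw [← Finset.card_pos]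
    exact_mod_cast hEpos
  -- doubling of `E`
  obtain ⟨K₂, hK₂⟩ : ∃ K₂ : ℝ, K₂ = K₁ * Real.exp (128 * κ₁ + 1) := ⟨_, rfl⟩
  have hK₂0 : 0 < K₂ := by rw [hK₂]; positivity
  have hRE : (R.card : ℝ) ≤ Real.exp (128 * κ₁ + 1) * E.card := by
    have h3 : (R.card : ℝ) = Real.exp (128 * κ₁ + 1) * (R.card * Real.exp (-(128 * κ₁ + 1))) := by
      rw [Real.exp_neg]; field_simp
    rw [h3]
    exact mul_le_mul_of_nonneg_left hEc (Real.exp_pos _).le
  have hK₁R : K₁ * (R.card : ℝ) ≤ K₂ * E.card := by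
    rw [hK₂, mul_assoc]
    exact mul_le_mul_of_nonneg_left hRE hK₁0.le
  have hKE : ((E + E).card : ℝ) ≤ K₂ * E.card := by
    have h1 : ((E + E).card : ℝ) ≤ (R + R).card := by
      exact_mod_cast Finset.card_le_card (Finset.add_subset_add hER hER)
    exact h1.trans (hKR.trans hK₁R)
  have hlogK₂ : Real.log K₂ ≤ 129 * κ₁ + 1 := by
    rw [hK₂, Real.log_mul hK₁0.ne' (Real.exp_pos _).ne', Real.log_exp]
    linarith
  have hρ12 : ρ ≤ 1 / 12 := by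
    have h1 := hρ 0 le_rfl (by positivity)
    linarith
  obtain ⟨r, N, ψ, F, e₀, hr, hN, h1, hFE, hDN, hEF⟩ := lift hfin hρ0 hρ12 hEne hEE hKE
  have hFne : F.Nonempty := by
    rw [← Finset.card_pos]
    by_contra h
    have h0 : F.card = 0 := by omega
    rw [h0, Nat.cast_zero, mul_zero] at hEF
    linarith
  have hrκ : (r : ℝ) ≤ 62700 * κ₁ := by linarith
  obtain ⟨B, F', hF'F, hB, hAvg, hinj, hFF', hdiff⟩ := geo_all hRne hRs hNev hSm hN h1 hFne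
    (fun f hf => hER (hFE f hf)) hρ0 hDN (hρ r (Nat.cast_nonneg _) hrκ)
  have hF'ne : F'.Nonempty := by
    rw [← Finset.card_pos]
    by_contra h
    have h0 : F'.card = 0 := by omega
    rw [h0, mul_zero] at hFF'
    have : 0 < F.card := Finset.card_pos.2 hFne
    omega
  -- the covering
  set G := F'.image fun z => t₁ + ψ₁ (e₀ + ψ z) with hG
  have hGc : G.card = F'.card := by
    apply Finset.card_image_of_injOn
    intro a ha b hb hab
    have h3 : ψ a = ψ b := add_left_cancel (hψ₁ (add_left_cancel hab))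
    have h4 : ψ (a - b) = ψ 0 := by rw [map_sub, h3, sub_self, map_zero]
    have h5 : (0 : Fin r → ℤ) ∈ LP B := by
      have := hdiff a ha a ha
      rwa [sub_self] at this
    exact sub_eq_zero.1 (hinj (hdiff a ha b hb) h5 h4)
  have hGne : G.Nonempty := hF'ne.image _
  have hGS : G ⊆ S := by
    intro z hz
    obtain ⟨a, ha, rfl⟩ := Finset.mem_image.1 hz
    exact hR1 _ (hER (hFE a (hF'F ha)))
  have hbig : K * (S.card : ℝ) ≤ (K₂ ^ 186 * 125 ^ r) * G.card := by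
    have h2 : (F.card : ℝ) ≤ 125 ^ r * F'.card := by exact_mod_cast hFF'
    calc K * (S.card : ℝ) ≤ K₂ * E.card := hSR.trans hK₁R
      _ ≤ K₂ * (K₂ ^ 185 * F.card) := by gcongr
      _ ≤ K₂ * (K₂ ^ 185 * (125 ^ r * F'.card)) := by gcongr
      _ = (K₂ ^ 186 * 125 ^ r) * G.card := by rw [hGc]; ring
  have hcov : ((S + G).card : ℝ) ≤ (K₂ ^ 186 * 125 ^ r) * G.card := by
    have h2 : ((S + G).card : ℝ) ≤ (S + S).card := by
      exact_mod_cast Finset.card_le_card (Finset.add_subset_add_left hGS)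
    exact h2.trans (hK.trans hbig)
  obtain ⟨X, hXS, hXc, hX⟩ := Finset.ruzsa_covering_add hGne hcov
  refine ⟨r, B, ψ₁.comp ψ, t₁, X, ?_, hB, ?_, ?_, hXS, ?_, ?_⟩
  · calc (r : ℝ) ≤ 62700 * κ₁ := hrκ
      _ ≤ 62700 * (1038 * κ) := by gcongr
      _ ≤ 7 * 10 ^ 7 * κ := by linarith
  · intro y hy y' hy' hyy
    exact hinj hy hy' (hψ₁ hyy)
  · intro n hev hn y hy
    have h2 : ((2 * N₀ : ℕ) : ℝ) ≤ n := by
      have h3 : κ₁ ^ 5 ≤ (1038 * κ) ^ 5 := pow_le_pow_left₀ (by linarith) hκ₁κ 5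
      have h4 : (2 : ℝ) ^ 80 * (1038 * κ) ^ 5 ≤ 10 ^ 40 * κ ^ 5 := by
        have h5 : (2 : ℝ) ^ 80 * (1038 * κ) ^ 5 = (2 ^ 80 * 1038 ^ 5) * κ ^ 5 := by ring
        rw [h5]
        have h6 : (0 : ℝ) ≤ κ ^ 5 := by positivity
        exact mul_le_mul_of_nonneg_right (by norm_num) h6
      push_cast at hN₀ ⊢
      calc 2 * (N₀ : ℝ) ≤ 2 ^ 80 * κ₁ ^ 5 := by linarith
        _ ≤ 2 ^ 80 * (1038 * κ) ^ 5 := by gcongr
        _ ≤ 10 ^ 40 * κ ^ 5 := h4
        _ ≤ n := hn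
    have hn1 : 1 ≤ n := by
      have h3 : (0 : ℝ) < n := lt_of_lt_of_le (by positivity) hn
      have : 0 < n := by exact_mod_cast h3
      omega
    exact Avg_mem_map hR1 (hAvg n hn1 hev (by exact_mod_cast h2) y hy)
  · refine hXc.trans ?_
    rw [← Real.exp_log (show 0 < K₂ ^ 186 * 125 ^ r by positivity), Real.exp_le_exp,
      Real.log_mul (by positivity) (by positivity), Real.log_pow, Real.log_pow]
    have h2 : (r : ℝ) * Real.log 125 ≤ (62700 * κ₁) * 4.853 :=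
      mul_le_mul hrκ log125_lt.le (Real.log_nonneg (by norm_num)) (by linarith)
    push_cast
    linarith
  · intro s hs
    obtain ⟨x, hx, y, hy, hxy⟩ := Finset.mem_add.1 (hX hs)
    obtain ⟨u, hu, v, hv, huv⟩ := Finset.mem_sub.1 hy
    obtain ⟨a, ha, rfl⟩ := Finset.mem_image.1 hu
    obtain ⟨b, hb, rfl⟩ := Finset.mem_image.1 hv
    refine ⟨x, hx, a - b, hdiff a ha b hb, ?_⟩
    rw [← hxy, ← huv, AddMonoidHom.comp_apply]
    simp only [map_add, map_sub]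
    abel

end Pool.Agent.Helper44.AS
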