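import Pool.Agent.Helper44.AS.Main
import Pool.Graph.R_seed8.TH198.DC.Cover

set_option autoImplicit false

/-! Torsion-free groups. -/

open scoped Pointwise

namespace Pool.Agent.Helper44.AS

open N173.BR Pool.Agent.TH198.DC H112 Pool.Agent.Helper44.FA

/-- the `n`-fold averages of elements of `A`: the `x` with `n x = a 1 + ... + a n`, all `a i` in
`A` -/
def averages {Γ : Type*} [AddCommGroup Γ] (n : ℕ) (A : Finset Γ) : Set Γ :=
  {x | ∃ a : Fin n → Γ, (∀ i, a i ∈ A) ∧ n • x = ∑ i, a i}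

theorem averages_finite {Γ : Type*} [AddCommGroup Γ] [IsAddTorsionFree Γ] {n : ℕ} (hn : 1 ≤ n)
    (A : Finset Γ) : (averages n A).Finite := by
  refine Set.Finite.of_injOn (f := fun x => n • x) (t := (SmF A n : Set Γ)) ?_ ?_
    (Finset.finite_toSet _)
  · rintro x ⟨a, ha, hx⟩
    exact Finset.mem_coe.2 (mem_SmF.2 ⟨a, ha, hx⟩)
  · intro x _ y _ hxy
    exact nsmul_right_injective (by omega : n ≠ 0) hxy

theorem exists_lattice {Γ : Type*} [AddCommGroup Γ] [IsAddTorsionFree Γ] [DecidableEq Γ]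
    (A : Finset Γ) :
    ∃ (m : ℕ) (ι : (Fin m → ℤ) →+ Γ) (S : Finset (Fin m → ℤ)), Function.Injective ι ∧
      S.image ι = A := by
  classical
  obtain ⟨V, hV⟩ : ∃ V : Submodule ℤ Γ, V = Submodule.span ℤ (A : Set Γ) := ⟨_, rfl⟩
  have hAV : ∀ a ∈ A, a ∈ V := fun a ha => by
    rw [hV]; exact Submodule.subset_span (Finset.mem_coe.2 ha)
  have : Module.Finite ℤ V := by
    rw [hV]
    exact Module.Finite.span_finset ℤ A
  have : IsAddTorsionFree V := by
    refine ⟨fun n hn x y hxy => ?_⟩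
    apply Subtype.ext
    apply nsmul_right_injective hn
    have := congrArg (Subtype.val) hxy
    simpa using this
  have : Module.Free ℤ V := inferInstance
  obtain ⟨b⟩ : Nonempty (Module.Basis (Fin (Module.finrank ℤ V)) ℤ V) := ⟨Module.finBasis ℤ V⟩
  let ι : (Fin (Module.finrank ℤ V) → ℤ) →+ Γ :=
    (V.subtype.comp (b.equivFun.symm : (Fin (Module.finrank ℤ V) → ℤ) →ₗ[ℤ] V)).toAddMonoidHom
  have hι : ∀ c, ι c = ((b.equivFun.symm c : V) : Γ) := fun c => rfl
  have hinj : Function.Injective ι := by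
    intro x y hxy
    rw [hι, hι] at hxy
    exact b.equivFun.symm.injective (Subtype.ext hxy)
  refine ⟨_, ι, A.attach.image (fun a => b.equivFun ⟨a.1, hAV a.1 a.2⟩), hinj, ?_⟩
  rw [Finset.image_image]
  ext x
  rw [Finset.mem_image]
  constructor
  · rintro ⟨a, _, rfl⟩
    show ι (b.equivFun ⟨a.1, hAV a.1 a.2⟩) ∈ A
    rw [hι, LinearEquiv.symm_apply_apply]
    exact a.2
  · intro hx
    refine ⟨⟨x, hx⟩, Finset.mem_attach _ _, ?_⟩
    show ι (b.equivFun ⟨x, _⟩) = x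
    rw [hι, LinearEquiv.symm_apply_apply]

theorem log625_lt : Real.log 625 < 6.54 := by
  have h1 : Real.log ((625 : ℝ) ^ 7) ≤ Real.log ((2 : ℝ) ^ 66) :=
    Real.log_le_log (by norm_num) (by norm_num)
  rw [Real.log_pow, Real.log_pow] at h1
  have := Real.log_two_lt_d9
  push_cast at h1
  linarith

theorem exp_eq {K c : ℝ} (hK : 0 < K) : Real.exp (c * Real.log (2 * K)) = (2 * K) ^ c := by
  rw [Real.rpow_def_of_pos (by linarith)]
  congr 1
  ring

theorem structure_tor {Γ : Type*} [AddCommGroup Γ] [IsAddTorsionFree Γ] [DecidableEq Γ] {K : ℝ}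
    {A : Finset Γ} (hA : A.Nonempty) (hK : ((A + A).card : ℝ) ≤ K * A.card) :
    ∃ (r : ℕ) (B : Set (Fin r → ℝ)) (ψ : (Fin r → ℤ) →+ Γ) (x₀ : Γ) (X : Finset Γ),
      (r : ℝ) ≤ 7 * 10 ^ 7 * Real.log (2 * K) ∧ SB B ∧ Set.InjOn ψ (LP B) ∧
      (∀ n : ℕ, Even n → 10 ^ 40 * Real.log (2 * K) ^ 5 ≤ n → ∀ y ∈ LP B,
        x₀ + ψ y ∈ averages n A) ∧
      X ⊆ A ∧ (X.card : ℝ) ≤ Real.exp (4 * 10 ^ 8 * Real.log (2 * K)) ∧
      ∀ a ∈ A, ∃ x ∈ X, ∃ y ∈ LP B, a = x + ψ y := by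
  classical
  obtain ⟨m, ι, S, hι, hSA⟩ := exists_lattice A
  have hSne : S.Nonempty := by
    rw [← hSA] at hA; exact Finset.image_nonempty.1 hA
  have hcard : S.card = A.card := by
    rw [← hSA, Finset.card_image_of_injective _ hι]
  have hcard2 : (S + S).card = (A + A).card := by
    rw [← hSA, ← Finset.image_add, Finset.card_image_of_injective _ hι]
  have hK' : ((S + S).card : ℝ) ≤ K * S.card := by rw [hcard2, hcard]; exact hK
  obtain ⟨r, B, ψ, x₀, X, hr, hB, hinj, hAvg, hXS, hX, hcov⟩ := structure_thm hSne hK' rfl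
  refine ⟨r, B, ι.comp ψ, ι x₀, X.image ι, hr, hB, ?_, ?_, ?_, ?_, ?_⟩
  · intro x hx y hy hxy
    exact hinj hx hy (hι hxy)
  · intro n hev hn y hy
    obtain ⟨a, ha, hay⟩ := hAvg n hev hn y hy
    refine ⟨fun i => ι (a i), fun i => ?_, ?_⟩
    · rw [← hSA]; exact Finset.mem_image_of_mem _ (ha i)
    · rw [← map_sum, hay, map_nsmul, map_add]
      rfl
  · rw [← hSA]
    exact Finset.image_subset_image hXS
  · refine le_trans ?_ hX
    exact_mod_cast Finset.card_image_le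
  · intro a ha
    rw [← hSA] at ha
    obtain ⟨s, hs, rfl⟩ := Finset.mem_image.1 ha
    obtain ⟨x, hx, y, hy, hxy⟩ := hcov s hs
    refine ⟨ι x, Finset.mem_image_of_mem _ hx, y, hy, ?_⟩
    rw [hxy, map_add]
    rfl

theorem small_volume {Γ : Type*} [AddCommGroup Γ] [IsAddTorsionFree Γ] [DecidableEq Γ] {K : ℝ}
    {A : Finset Γ} (hA : A.Nonempty) (hK : ((A + A).card : ℝ) ≤ K * A.card) {n : ℕ} (hev : Even n)
    (hn : 10 ^ 40 * Real.log (2 * K) ^ 5 ≤ n) :
    ∃ (r : ℕ) (B : Set (Fin r → ℝ)) (ψ : (Fin r → ℤ) →+ Γ) (T : Finset Γ),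
      (r : ℝ) ≤ 7 * 10 ^ 7 * Real.log (2 * K) ∧ SB B ∧ (LP B).ncard ≤ A.card ∧
      (T.card * A.card : ℝ) ≤ Real.exp (9 * 10 ^ 8 * Real.log (2 * K)) *
        max (A.card : ℝ) (averages n A).ncard ∧
      ∀ a ∈ A, ∃ t ∈ T, ∃ y ∈ LP B, a = t + ψ y := by
  classical
  have hc : (0 : ℝ) < A.card := by exact_mod_cast hA.card_pos
  have hK1 : 1 ≤ K := by
    have h1 : (A.card : ℝ) ≤ (A + A).card := by
      exact_mod_cast Finset.card_le_card_add_right hA
    by_contra h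
    nlinarith
  have hκ0 : 0 < Real.log (2 * K) := Real.log_pos (by linarith)
  have hn1 : 1 ≤ n := by
    have h3 : (0 : ℝ) < n := lt_of_lt_of_le (by positivity) hn
    have : 0 < n := by exact_mod_cast h3
    omega
  obtain ⟨r, B, ψ, x₀, X, hr, hB, hinj, hAvg, hXA, hX, hcov⟩ := structure_tor hA hK
  have hvol : (LP B).ncard ≤ (averages n A).ncard := by
    refine Set.ncard_le_ncard_of_injOn (fun y => x₀ + ψ y) (fun y hy => hAvg n hev hn y hy) ?_
      (averages_finite hn1 A)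
    intro y hy y' hy' hyy
    exact hinj hy hy' (add_left_cancel (hyy : x₀ + ψ y = x₀ + ψ y'))
  obtain ⟨B', hB', hB'c, Y, hY, hYcov⟩ := hB.shrink (N := A.card) hA.card_pos
  refine ⟨r, B', ψ, X + Y.image ψ, hr, hB', hB'c, ?_, ?_⟩
  · have h1 : ((X + Y.image ψ).card : ℝ) ≤ X.card * Y.card := by
      have h2 : (X + Y.image ψ).card ≤ X.card * Y.card :=
        Finset.card_add_le.trans (Nat.mul_le_mul_left _ Finset.card_image_le)
      exact_mod_cast h2
    have h3 : ((Y.card * A.card : ℕ) : ℝ) ≤ ((625 ^ r * max A.card (LP B).ncard : ℕ) : ℝ) := by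
      exact_mod_cast hY
    push_cast at h3
    have h4 : max (A.card : ℝ) ((LP B).ncard : ℝ) ≤ max (A.card : ℝ) ((averages n A).ncard : ℝ) :=
      max_le_max le_rfl (by exact_mod_cast hvol)
    have hM : (0 : ℝ) ≤ max (A.card : ℝ) ((averages n A).ncard : ℝ) := le_max_of_le_left hc.le
    have h5 : (625 : ℝ) ^ r ≤ Real.exp (5 * 10 ^ 8 * Real.log (2 * K)) := by
      have e1 : (625 : ℝ) ^ r = Real.exp (r * Real.log 625) := by
        rw [Real.exp_nat_mul, Real.exp_log (by norm_num)]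
      rw [e1, Real.exp_le_exp]
      have h6 : (r : ℝ) * Real.log 625 ≤ (7 * 10 ^ 7 * Real.log (2 * K)) * 6.54 :=
        mul_le_mul hr log625_lt.le (Real.log_nonneg (by norm_num)) (by positivity)
      linarith
    calc ((X + Y.image ψ).card : ℝ) * A.card ≤ (X.card * Y.card) * A.card := by gcongr
      _ = X.card * (Y.card * A.card) := by ring
      _ ≤ Real.exp (4 * 10 ^ 8 * Real.log (2 * K)) * (625 ^ r * max (A.card : ℝ) ((LP B).ncard : ℝ)) := by
        gcongr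
      _ ≤ Real.exp (4 * 10 ^ 8 * Real.log (2 * K)) * (Real.exp (5 * 10 ^ 8 * Real.log (2 * K)) *
          max (A.card : ℝ) ((averages n A).ncard : ℝ)) := by gcongr
      _ = Real.exp (9 * 10 ^ 8 * Real.log (2 * K)) * max (A.card : ℝ) ((averages n A).ncard : ℝ) := by
        rw [← mul_assoc, ← Real.exp_add]
        congr 2
        ring
  · intro a ha
    obtain ⟨x, hx, y, hy, hxy⟩ := hcov a ha
    have hy2 : y ∈ LP ((2 : ℝ) • B) := by
      show rv y ∈ (2 : ℝ) • B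
      have hy' : rv y ∈ B := hy
      refine ⟨(1 / 2 : ℝ) • rv y, ?_, ?_⟩
      · have := hB.conv hy' hB.zero_mem (by norm_num : (0 : ℝ) ≤ 1 / 2)
          (by norm_num : (0 : ℝ) ≤ 1 / 2) (by norm_num)
        simpa using this
      · show (2 : ℝ) • ((1 / 2 : ℝ) • rv y) = rv y
        rw [smul_smul]; norm_num
    obtain ⟨z, hz, w, hw, hzw⟩ := hYcov y hy2
    refine ⟨x + ψ z, Finset.add_mem_add hx (Finset.mem_image_of_mem _ hz), w, hw, ?_⟩
    rw [hxy, hzw, map_add]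
    abel

end Pool.Agent.Helper44.AS
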